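import Pool.Agent.J4H9.BF.Stm

/-!
# Multiple transitivity on the pairs (project BF, piece JOR)

`t_JOR : S_JOR`: a finite group acting on a set with a commuting involution without fixed points,
transitively on the `g` pairs, which contains a pure cycle of prime length `r` with
`g < 2 r` and `r + 3 ≤ g`, is `(g - r)`-transitive on the pairs (Jordan's theorem, from
`MulAction.IsPreprimitive.isMultiplyPreprimitive`).
-/

set_option autoImplicit false

namespace Pool.Agent.J4H6.BF

open Pool.Agent.J4H9.BF MulAction

variable {G X : Type} [Group G] [MulAction G X] {bar : X → X}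

/-- The pairs. -/
def prs (S : Sgn G X bar) : Setoid X where
  r x y := x = y ∨ x = bar y
  iseqv := by
    refine ⟨fun x => Or.inl rfl, ?_, ?_⟩
    · intro x y h
      rcases h with h | h
      · exact Or.inl h.symm
      · right
        rw [h, S.bb]
    · intro x y z h h'
      rcases h with h | h <;> rcases h' with h' | h'
      · exact Or.inl (h.trans h')
      · right
        rw [h, h']
      · right
        rw [h, h']
      · left
        rw [h, h', S.bb]

/-- The set of the pairs. -/
def Prs (S : Sgn G X bar) : Type := Quotient (prs S)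

/-- The pair of an element. -/
def mk (S : Sgn G X bar) (x : X) : Prs S := Quotient.mk (prs S) x

theorem mk_eq (S : Sgn G X bar) {x y : X} : mk S x = mk S y ↔ x = y ∨ x = bar y :=
  Quotient.eq (r := prs S)

theorem mk_surj (S : Sgn G X bar) : Function.Surjective (mk S) := Quotient.mk_surjective

instance (S : Sgn G X bar) : MulAction G (Prs S) where
  smul g p := Quotient.map' (s₁ := prs S) (s₂ := prs S) (fun x => g • x) (by
    intro x y h
    rcases h with h | h
    · left
      rw [h]
    · right
      simp only [h]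
      rw [S.comm]) p
  one_smul p := by
    obtain ⟨x, rfl⟩ := mk_surj S p
    show mk S ((1 : G) • x) = _
    rw [one_smul]
  mul_smul a b p := by
    obtain ⟨x, rfl⟩ := mk_surj S p
    show mk S ((a * b) • x) = mk S (a • b • x)
    rw [mul_smul]

theorem smul_mk (S : Sgn G X bar) (g : G) (x : X) : g • mk S x = mk S (g • x) := rfl

instance [Finite X] (S : Sgn G X bar) : Finite (Prs S) := Finite.of_surjective _ (mk_surj S)

theorem card_prs [Finite X] (S : Sgn G X bar) : Nat.card X = 2 * Nat.card (Prs S) := by
  classical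
  let e : Prs S × Bool → X := fun p => if p.2 then (mk_surj S p.1).choose
    else bar (mk_surj S p.1).choose
  have h1 : ∀ p : Prs S, mk S (mk_surj S p).choose = p := fun p => (mk_surj S p).choose_spec
  have h2 : ∀ x, mk S (bar x) = mk S x := fun x => (mk_eq S).2 (Or.inr rfl)
  have hmk : ∀ p, mk S (e p) = p.1 := by
    intro p
    simp only [e]
    split_ifs
    · exact h1 _
    · rw [h2]
      exact h1 _
  have he : Function.Bijective e := by
    constructor
    · rintro ⟨p, b⟩ ⟨q, c⟩ h
      have h3 : p = q := by
        have := congrArg (mk S) h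
        rw [hmk, hmk] at this
        exact this
      subst h3
      congr 1
      simp only [e] at h
      cases b <;> cases c
      · rfl
      · simp only [Bool.false_eq_true, if_false, if_true] at h
        exact absurd h (S.ne _)
      · simp only [Bool.false_eq_true, if_false, if_true] at h
        exact absurd h.symm (S.ne _)
      · rfl
    · intro x
      have h3 := (mk_eq S).1 (h1 (mk S x)).symm
      rcases h3 with h3 | h3
      · exact ⟨(mk S x, true), by simp only [e, if_true]; exact h3.symm⟩
      · exact ⟨(mk S x, false), by simp only [e, Bool.false_eq_true, if_false]; exact h3.symm⟩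
  rw [← Nat.card_congr (Equiv.ofBijective e he), Nat.card_prod]
  rw [show Nat.card Bool = 2 by simp]
  ring

theorem pow_smul_mk (S : Sgn G X bar) (τ : G) (k : ℕ) (x : X) :
    τ ^ k • mk S x = mk S (τ ^ k • x) := rfl

/-- Jordan's theorem on multiple transitivity, for the pairs. -/
theorem t_JOR : S_JOR := by
  intro G X _ _ _ _ bar g r S hcard hr hgr hr3 τ x₀ hτ m hm
  classical
  have hg : Nat.card (Prs S) = g := by
    have := card_prs S
    omega
  have hr2 := hr.two_le
  have : IsPretransitive G (Prs S) := by
    refine ⟨?_⟩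
    intro p q
    obtain ⟨x, rfl⟩ := mk_surj S p
    obtain ⟨y, rfl⟩ := mk_surj S q
    obtain ⟨σ, hσ⟩ := S.trans x y
    exact ⟨σ, (mk_eq S).2 hσ⟩
  -- the orbit of the cycle
  let T : Set (Prs S) := Set.range fun k : ℕ => mk S (τ ^ k • x₀)
  have hmod : ∀ k : ℕ, τ ^ k • x₀ = τ ^ (k % r) • x₀ := by
    intro k
    have h1 : ∀ j : ℕ, (τ ^ r) ^ j • x₀ = x₀ := by
      intro j
      induction j with
      | zero => rw [pow_zero, one_smul]
      | succ j ih => rw [pow_succ, mul_smul, hτ.per, ih]
    conv_lhs => rw [← Nat.mod_add_div k r]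
    rw [pow_add, mul_smul, pow_mul, h1]
  have hTimg : T = (fun k : ℕ => mk S (τ ^ k • x₀)) '' (Finset.range r : Set ℕ) := by
    ext p
    constructor
    · rintro ⟨k, rfl⟩
      refine ⟨k % r, ?_, ?_⟩
      · simp only [Finset.coe_range, Set.mem_Iio]
        exact Nat.mod_lt _ hr.pos
      · simp only
        rw [← hmod]
    · rintro ⟨k, -, rfl⟩
      exact ⟨k, rfl⟩
  have hTcard : T.ncard = r := by
    rw [hTimg, Set.InjOn.ncard_image, Set.ncard_coe_finset, Finset.card_range]
    intro k hk l hl h
    simp only [Finset.coe_range, Set.mem_Iio] at hk hl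
    rcases (mk_eq S).1 h with h | h
    · exact hτ.inj k hk l hl h
    · exact absurd h (hτ.ne k l)
  let s : Set (Prs S) := Tᶜ
  have hscard : s.ncard = (g - r - 1) + 1 := by
    have h1 := Set.ncard_add_ncard_compl T
    rw [hTcard, hg] at h1
    show (Tᶜ).ncard = _
    omega
  have hτs : τ ∈ fixingSubgroup G s := by
    rw [mem_fixingSubgroup_iff]
    intro p hp
    obtain ⟨x, rfl⟩ := mk_surj S p
    rcases hτ.fix x with ⟨k, hk | hk⟩ | hx
    · exact absurd ⟨k, by simp only [hk]⟩ hp
    · exact absurd ⟨k, ((mk_eq S).2 (Or.inr (by rw [hk, S.bb])))⟩ hp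
    · rw [smul_mk, hx]
  have hmemT : ∀ p : SubMulAction.ofFixingSubgroup G s, (p : Prs S) ∈ T := by
    intro p
    have := (SubMulAction.mem_ofFixingSubgroup_iff G).1 p.2
    by_contra h
    exact this h
  let τ' : fixingSubgroup G s := ⟨τ, hτs⟩
  have htr : IsPretransitive (fixingSubgroup G s) (SubMulAction.ofFixingSubgroup G s) := by
    refine ⟨?_⟩
    intro p q
    obtain ⟨k, hk⟩ := hmemT p
    obtain ⟨l, hl⟩ := hmemT q
    refine ⟨τ' ^ l * (τ' ^ k)⁻¹, ?_⟩
    apply Subtype.ext
    show (τ ^ l * (τ ^ k)⁻¹) • (p : Prs S) = (q : Prs S)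
    rw [← hk, ← hl]
    show (τ ^ l * (τ ^ k)⁻¹) • mk S (τ ^ k • x₀) = mk S (τ ^ l • x₀)
    rw [smul_mk, smul_smul, inv_mul_cancel_right]
  have hcT : Nat.card (SubMulAction.ofFixingSubgroup G s) = r := by
    rw [← hTcard]
    rw [← Nat.card_coe_set_eq]
    refine Nat.card_congr (Equiv.subtypeEquivRight ?_)
    intro p
    rw [SubMulAction.mem_ofFixingSubgroup_iff]
    show ¬ (p ∉ T) ↔ _
    rw [not_not]
  have hprim : IsPreprimitive (fixingSubgroup G s) (SubMulAction.ofFixingSubgroup G s) := by
    apply IsPreprimitive.of_prime_card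
    rw [hcT]
    exact hr
  have hP : IsPreprimitive G (Prs S) := by
    let f : SubMulAction.ofFixingSubgroup G s →ₑ[(fixingSubgroup G s).subtype] Prs S :=
      { toFun := fun p => (p : Prs S)
        map_smul' := fun _ _ => rfl }
    apply IsPreprimitive.of_card_lt (f := f)
    have h1 : Set.range f = T := by
      ext p
      constructor
      · rintro ⟨q, rfl⟩
        exact hmemT q
      · intro hp
        refine ⟨⟨p, ?_⟩, rfl⟩
        rw [SubMulAction.mem_ofFixingSubgroup_iff]
        show ¬ (p ∉ T)
        rw [not_not]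
        exact hp
    rw [h1, hTcard, hg]
    exact hgr
  have hmp : IsMultiplyPreprimitive G (Prs S) (g - r - 1 + 2) := by
    apply hP.isMultiplyPreprimitive hscard ?_ hprim
    rw [hg]
    omega
  have hmt : IsMultiplyPretransitive G (Prs S) (g - r - 1 + 2) :=
    IsMultiplyPreprimitive.isMultiplyPretransitive ..
  have hmt' : IsMultiplyPretransitive G (Prs S) m := by
    refine isMultiplyPretransitive_of_le (n := g - r - 1 + 2) (by omega) ?_
    rw [hg]
    omega
  intro a b ha hb
  let a' : Fin m ↪ Prs S := ⟨fun i => mk S (a i), by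
    intro i j h
    by_contra hij
    rcases (mk_eq S).1 h with h | h
    · exact (ha i j hij).1 h
    · exact (ha i j hij).2 h⟩
  let b' : Fin m ↪ Prs S := ⟨fun i => mk S (b i), by
    intro i j h
    by_contra hij
    rcases (mk_eq S).1 h with h | h
    · exact (hb i j hij).1 h
    · exact (hb i j hij).2 h⟩
  obtain ⟨σ, hσ⟩ := (isMultiplyPretransitive_iff.1 hmt') a' b'
  refine ⟨σ, ?_⟩
  intro i
  have := DFunLike.congr_fun hσ i
  exact (mk_eq S).1 this

end Pool.Agent.J4H6.BF
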